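import Pool.Agent.Run7.h420.TM.Main

/-!
# Kazhdan groups with small proper subgroups are not dynamically compressible

Let `G` be a countably infinite group with Kazhdan's property (T) all of whose proper subgroups are
finite or cyclic (for instance a Tarski monster with property (T); such groups exist by theorems of
Olshanskii, which are not proved here).  Then `G` is not dynamically compressible: the orbit
equivalence relation of the shift action of `G` on the free part of `(ℝ/ℤ)^G` is aperiodic and has
no Borel reduction to the orbit equivalence relation of any Borel action of `G` whose orbit
equivalence relation is aperiodic and compressible.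

Proof.  Suppose `f` is a reduction to the orbit relation of such an action on `Y`.  Because all
proper subgroups are finite or cyclic, ergodicity shows that the stabiliser of `f x` is almost surely
one fixed normal subgroup `K`.  So `f (g x) = w(g, x) f x` for a measurable cocycle `w` with values
in the countable group `G ⧸ K`.  Popa's cocycle superrigidity theorem for Bernoulli shifts of
property (T) groups (proved here in the case needed: circle base, countable discrete targets) gives
`w(g, x) = A (g x) δ(g) A(x)⁻¹` with a homomorphism `δ : G → G ⧸ K`.  The twisted map
`f' x = A(x)⁻¹ f x` satisfies `f' (g x) = δ(g) f' x`.  If `δ` has infinite kernel, `f'` is constant by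
mixing; otherwise `δ` is onto and the distribution of `f'` is a `G`-invariant probability measure on
`Y`, which is incompatible with compressibility.
-/

set_option autoImplicit false

namespace Pool.Agent.Results.MP_45e9b0_lc.KazhdanTarski

/-- Kazhdan's property (T): there are a finite set `S` in `G` and `ε > 0` such that every unitary
representation of `G` on a complex Hilbert space which has a unit vector `v` with
`‖π(s) v - v‖ < ε` for all `s` in `S` has a nonzero invariant vector. -/
def PropertyT (G : Type) [Group G] : Prop :=
  ∃ (S : Finset G) (ε : ℝ), 0 < ε ∧
    ∀ (H : Type) [NormedAddCommGroup H] [InnerProductSpace ℂ H] [CompleteSpace H]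
      (π : G →* (H ≃ₗᵢ[ℂ] H)),
      (∃ v : H, ‖v‖ = 1 ∧ ∀ s ∈ S, ‖π s v - v‖ < ε) → ∃ u : H, u ≠ 0 ∧ ∀ g : G, π g u = u

/-- Dynamical compressibility of `G`: the orbit equivalence relation of every Borel action of `G`
on a standard Borel space with infinite orbits is Borel reducible to the orbit equivalence relation
of a Borel action of `G` on a standard Borel space which has infinite orbits and is compressible (an
injective Borel map `c` sends every orbit into a proper part of itself). -/
def DynamicallyCompressible (G : Type) [Group G] : Prop :=
    ∀ (X : Type) [MeasurableSpace X] [StandardBorelSpace X] [MulAction G X],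
      (∀ g : G, Measurable (fun x : X => g • x)) →
      (∀ x : X, (MulAction.orbit G x).Infinite) →
      ∃ (Y : Type) (_ : MeasurableSpace Y) (_ : StandardBorelSpace Y) (_ : MulAction G Y),
        (∀ g : G, Measurable (fun y : Y => g • y)) ∧
        (∀ y : Y, (MulAction.orbit G y).Infinite) ∧
        (∃ c : Y → Y, Measurable c ∧ Function.Injective c ∧
          (∀ y : Y, c y ∈ MulAction.orbit G y) ∧
          (∀ y : Y, ∃ z ∈ MulAction.orbit G y, ∀ w : Y, c w ≠ z)) ∧
        (∃ f : X → Y, Measurable f ∧
          ∀ x x' : X, (x' ∈ MulAction.orbit G x ↔ f x' ∈ MulAction.orbit G (f x)))

/-- No countably infinite group with property (T) all of whose proper subgroups are finite or cyclic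
is dynamically compressible. -/
theorem result (G : Type) [Group G] [Countable G] [Infinite G] (hT : PropertyT G)
    (hG : ∀ H : Subgroup G, H ≠ ⊤ → Finite H ∨ IsCyclic H) :
    ¬ DynamicallyCompressible G :=
  Pool.Agent.Run7.h420.TM.main G hT hG

end Pool.Agent.Results.MP_45e9b0_lc.KazhdanTarski
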